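import Pool.Agent.H78.OX.Targets

/-!
# The seed of the stage is good
-/

set_option autoImplicit false

namespace Pool.Agent.H81.OX

open Finset Filter Pool.Agent.H6.NB Pool.Agent.H70.OQ Pool.Agent.H70.EH Pool.Agent.H78.XQ
  Pool.Agent.H78.OX

/-- The average is invariant under renumbering. -/
theorem avg_equiv {U U' : Type} [Fintype U] [Fintype U'] (e : U ≃ U') (q : ℕ) (P : U' → VV q → Bool) :
    avg q (fun u => P (e u)) = avg q P := by
  unfold avg
  rw [Fintype.card_congr e]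
  congr 1
  exact Equiv.sum_comp e fun u => phi q (P u) ^ 2

/-- `Fit` is invariant under renumbering of the copies. -/
theorem fit_equiv {U U' : Type} [Fintype U] [Fintype U'] (e : U ≃ U') (q R r : ℕ) (b : Bool)
    (P : U' → VV q → Bool) (y : (Fin r → Bool) → Bool) :
    Fit q R r b (fun u => P (e u)) y ↔ Fit q R r b P y := by
  unfold Fit Pool.Agent.H78.XQ.kap
  rw [avg_equiv e]

/-- The positions in the notation of the stage. -/
theorem pos_eq_bx (s : List Bool) (u : Fin (2 * s.length) → Bool) (v : VV (qs s)) :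
    true :: true :: pos s (List.ofFn u) (List.ofFn v.2) v.1 = bx s ((eu (2 * s.length)).symm u) v := by
  unfold bx
  rw [Equiv.apply_symm_apply]

theorem dax (hCLX : Pool.Agent.H78.OX.T_CLX) (hLNX : T_LNX) : T_DAX := by
  classical
  intro J n a σ₀ hσ T κ P z hP s
  obtain ⟨-, h2, h3, h4, h5⟩ := hCLX J n (2 ^ a) σ₀
  obtain ⟨-, -, -, l1, l2, l3, l4, l5, l6, l7, l8, l9⟩ := hLNX
  by_cases hs : n ^ 2 ≤ s.length ∧ s.length < n ^ 2 ^ a
  · have h := hP ⟨s, hs⟩
    unfold DecX
    have e1 : sdx J n (2 ^ a) σ₀ T κ P z (key s) = κ ⟨s, hs⟩ := by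
      unfold sdx
      have := h2 ⟨s, hs⟩
      simp only at this
      rw [this]; rfl
    have e2 : cps (sh (sdx J n (2 ^ a) σ₀ T κ P z)) s =
        fun u => P ⟨s, hs⟩ ((eu (2 * s.length)).symm u) := by
      funext u v
      unfold cps cpx sh
      rw [pos_eq_bx s u v]
      unfold sdx
      have := h3 ⟨s, hs⟩ ((eu (2 * s.length)).symm u) v
      simp only at this
      rw [this]; rfl
    have e3 : (fun y : Fin (wlx s) → Bool => sh (sdx J n (2 ^ a) σ₀ T κ P z) (wps s (List.ofFn y))) =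
        fun y => z ⟨⟨s, hs⟩, y⟩ := by
      funext y
      have := h4 ⟨s, hs⟩ y
      simp only at this
      unfold wx at this
      unfold sh sdx
      rw [this]; rfl
    rw [e1, e2, e3, fit_equiv]
    exact h
  · have e1 : sdx J n (2 ^ a) σ₀ T κ P z (key s) = σ₀ (key s) := by
      unfold sdx
      rcases h5 (key s) with ⟨p, h⟩ | ⟨s', h⟩ | ⟨s', i, v, h⟩ | ⟨s', y, h⟩ | h
      · exact absurd h.symm (l3 _ _)
      · exact absurd s'.2 ((l6 _ _ h) ▸ hs)
      · exact absurd h.symm (l1 _ _ _ _)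
      · exact absurd h.symm (l2 _ _ _)
      · rw [h]; rfl
    have e2 : cps (sh (sdx J n (2 ^ a) σ₀ T κ P z)) s = cps (sh σ₀) s := by
      funext u v
      unfold cps cpx sh
      rw [pos_eq_bx s u v]
      unfold sdx
      rcases h5 (bx s ((eu (2 * s.length)).symm u) v) with
        ⟨p, h⟩ | ⟨s', h⟩ | ⟨s', i, v', h⟩ | ⟨s', y, h⟩ | h
      · exact absurd h.symm (l4 _ _ _ _)
      · exact absurd h (l1 _ _ _ _)
      · exact absurd s'.2 ((l7 _ _ _ _ _ _ h) ▸ hs)
      · exact absurd h (l9 _ _ _ _ _)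
      · rw [h]; rfl
    have e3 : (fun y : Fin (wlx s) → Bool => sh (sdx J n (2 ^ a) σ₀ T κ P z) (wps s (List.ofFn y))) =
        fun y => sh σ₀ (wps s (List.ofFn y)) := by
      funext y
      change sdx J n (2 ^ a) σ₀ T κ P z (wx s y) = σ₀ (wx s y)
      unfold sdx
      rcases h5 (wx s y) with ⟨p, h⟩ | ⟨s', h⟩ | ⟨s', i, v', h⟩ | ⟨s', y', h⟩ | h
      · exact absurd h.symm (l5 _ _ _)
      · exact absurd h (l2 _ _ _)
      · exact absurd h.symm (l9 _ _ _ _ _)
      · exact absurd s'.2 ((l8 _ _ _ _ h) ▸ hs)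
      · rw [h]; rfl
    unfold DecX
    rw [e1, e2, e3]
    exact hσ s

end Pool.Agent.H81.OX
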